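import Mathlib

open MeasureTheory Complex

namespace Pool.Agent.Results.MP_8d8cf3_an.Fail

/-- the periodic beam solution with coefficients cp, cm -/
noncomputable def u (cp cm : ℤ → ℂ) (t x : ℝ) : ℂ :=
  cp 0 + cm 0 * t + ∑' k : ℤ, if k = 0 then 0 else
    (cp k * exp (I * k ^ 2 * t) + cm k * exp (-(I * k ^ 2 * t))) * exp (I * k * x)

/-- the inverse inequality, tested only on finitely supported coefficients -/
def Inverse {m : ℕ} (a : Fin m → ℤ) (t₀ x₀ : Fin m → ℝ) (T : ℝ) : Prop :=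
  ∃ α > 0, ∀ cp cm : ℤ → ℂ, (Function.support cp).Finite → (Function.support cm).Finite →
    ∑' k, (‖cp k‖ ^ 2 + ‖cm k‖ ^ 2) ≤
      α * ∑ i, ∫ t in (0 : ℝ)..T, ‖u cp cm (t₀ i + t) (x₀ i - a i * t)‖ ^ 2

noncomputable def e (a : ℤ) (t : ℝ) (k : ℤ) : ℂ := exp (I * k ^ 2 * t) * exp (I * k * (0 - a * t : ℝ))

lemma e_norm (a : ℤ) (t : ℝ) (k : ℤ) : ‖e a t k‖ = 1 := by
  have h1 : I * k ^ 2 * t = ((k ^ 2 * t : ℝ) : ℂ) * I := by push_cast; ring
  have h2 : I * k * (0 - a * t : ℝ) = ((k * (0 - a * t) : ℝ) : ℂ) * I := by push_cast; ring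
  rw [e, norm_mul, h1, h2, norm_exp_ofReal_mul_I, norm_exp_ofReal_mul_I, mul_one]

lemma e_refl (a : ℤ) (t : ℝ) (k : ℤ) : e a t (-k) = e a t (k + a) := by
  rw [e, e, ← exp_add, ← exp_add]; congr 1; push_cast; ring

lemma tele (f : ℤ → ℂ) (hf : ∀ k, ‖f k‖ = 1) (L : ℕ) (b : ℕ) (c : ℤ) :
    ‖∑ j ∈ Finset.range L, (f (c + j) - f (c + j + b))‖ ≤ 2 * b := by
  have h : ∑ j ∈ Finset.range L, (f (c + j) - f (c + j + b)) =
      ∑ j ∈ Finset.range b, (f (c + j) - f (c + j + L)) := by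
    have h1 := Finset.sum_range_add (fun j : ℕ => f (c + j)) L b
    have h2 := Finset.sum_range_add (fun j : ℕ => f (c + j)) b L
    rw [add_comm b L, h1] at h2
    simp only [Finset.sum_sub_distrib]
    have e1 : ∑ j ∈ Finset.range L, f (c + j + b) = ∑ j ∈ Finset.range L, f (c + (b + j : ℕ)) :=
      Finset.sum_congr rfl fun j _ => by congr 1; push_cast; ring
    have e2 : ∑ j ∈ Finset.range b, f (c + j + L) = ∑ j ∈ Finset.range b, f (c + (L + j : ℕ)) :=
      Finset.sum_congr rfl fun j _ => by congr 1; push_cast; ring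
    rw [e1, e2]; linear_combination h2
  rw [h]
  refine (norm_sum_le _ _).trans ?_
  refine (Finset.sum_le_card_nsmul _ _ 2 fun j _ => ?_).trans (by simp [mul_comm])
  refine (norm_sub_le _ _).trans ?_
  rw [hf, hf]; norm_num

noncomputable def c (L : ℕ) (k : ℤ) : ℂ := if |k| ≤ L then k.sign else 0

lemma sum_c (L : ℕ) (g : ℤ → ℂ) (hg : ∀ k, c L k = 0 → g k = 0) :
    ∑' k, g k = ∑ j ∈ Finset.range L, (g (1 + j) + g (-(1 + j))) := by
  have hs : ∀ k ∉ Finset.Icc (-(L : ℤ)) L, g k = 0 := fun k hk =>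
    hg k (if_neg (by rw [abs_le]; simpa using hk))
  rw [tsum_eq_sum hs]
  have h0 : g 0 = 0 := hg 0 (by simp [c])
  clear hs hg
  induction L with
  | zero => simp [h0]
  | succ L ih =>
    have : Finset.Icc (-((L + 1 : ℕ) : ℤ)) (L + 1 : ℕ) =
        insert (1 + L : ℤ) (insert (-(1 + L) : ℤ) (Finset.Icc (-(L : ℤ)) L)) := by
      ext k; simp; omega
    rw [this, Finset.sum_insert (by simp; omega), Finset.sum_insert (by simp), ih,
      Finset.sum_range_succ]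
    ring

lemma c_pos (L j : ℕ) (h : j < L) : c L (1 + j) = 1 ∧ c L (-(1 + j)) = -1 := by
  have h1 : |(1 + j : ℤ)| ≤ L := by rw [abs_of_nonneg (by omega)]; omega
  have h2 : (1 + j : ℤ).sign = 1 := Int.sign_eq_one_of_pos (by omega)
  constructor
  · simp [c, h1, h2]
  · rw [c, abs_neg, if_pos h1, Int.sign_neg, h2]; simp

lemma u_le (L : ℕ) (a : ℤ) (t : ℝ) : ‖u (c L) 0 (0 + t) (0 - a * t)‖ ≤ 2 * |a| := by
  have h : u (c L) 0 (0 + t) (0 - a * t) =
      ∑ j ∈ Finset.range L, (e a t (1 + j) - e a t (1 + j + a)) := by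
    rw [u, sum_c L _ (fun k hk => by simp [hk])]
    have c0 : c L 0 = 0 := by simp [c]
    simp only [c0, Pi.zero_apply, zero_mul, zero_add, add_zero]
    refine Finset.sum_congr rfl fun j hj => ?_
    have := c_pos L j (by simpa using hj)
    rw [if_neg (show ¬ (1 + j : ℤ) = 0 by omega), if_neg (show ¬ (-(1 + j) : ℤ) = 0 by omega),
      this.1, this.2, ← e_refl, e, e]
    ring
  rw [h]
  obtain ⟨b, rfl | rfl⟩ := Int.eq_nat_or_neg a
  · simpa using tele _ (e_norm b t) L b 1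
  · have := tele _ (e_norm (-b) t) L b (1 - b)
    rw [← norm_neg, ← Finset.sum_neg_distrib, Finset.sum_congr rfl
      (g := fun j : ℕ => e (-b) t (1 - b + j) - e (-b) t (1 - b + j + b))
      (fun j _ => by rw [neg_sub]; congr 2 <;> ring)]
    simpa using this

lemma main (m : ℕ) (a : Fin m → ℤ) (T : ℝ) (hT : 0 < T) :
    ¬ Inverse a (fun _ => 0) (fun _ => 0) T := by
  rintro ⟨α, hα, h⟩
  obtain ⟨L, hL⟩ := exists_nat_gt (α * ∑ i, T * (2 * |a i|) ^ 2)
  have h1 := h (c L) 0 ((Finset.Icc (-(L : ℤ)) L).finite_toSet.subset fun k hk => by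
    by_contra hh
    exact hk (if_neg (by rw [abs_le]; simpa using hh))) (by simp)
  have h2 : ∑' k, (‖c L k‖ ^ 2 + ‖(0 : ℤ → ℂ) k‖ ^ 2) = 2 * L := by
    have := sum_c L (fun k => ((‖c L k‖ ^ 2 + ‖(0 : ℤ → ℂ) k‖ ^ 2 : ℝ) : ℂ))
      (fun k hk => by simp [hk])
    rw [← ofReal_tsum, Finset.sum_congr rfl (g := fun _ => 2) (fun j hj => by
      have := c_pos L j (by simpa using hj)
      rw [this.1, this.2]; norm_num)] at this
    simp only [Finset.sum_const, Finset.card_range, nsmul_eq_mul] at this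
    rw [mul_comm]; exact_mod_cast this
  have h3 : ∀ i, ∫ t in (0 : ℝ)..T, ‖u (c L) 0 (0 + t) (0 - a i * t)‖ ^ 2 ≤
      T * (2 * |a i|) ^ 2 := by
    intro i
    have := intervalIntegral.norm_integral_le_of_norm_le_const (a := 0) (b := T)
      (f := fun t => ‖u (c L) 0 (0 + t) (0 - a i * t)‖ ^ 2) (C := (2 * |a i|) ^ 2)
      (fun t _ => by
        rw [norm_pow, norm_norm]
        exact pow_le_pow_left₀ (norm_nonneg _) (by exact_mod_cast u_le L (a i) t) 2)
    rw [sub_zero, abs_of_pos hT, mul_comm] at this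
    exact (le_abs_self _).trans this
  have h4 := mul_le_mul_of_nonneg_left (Finset.sum_le_sum fun i (_ : i ∈ Finset.univ) => h3 i) hα.le
  rw [h2] at h1
  have : (0 : ℝ) ≤ L := by positivity
  linarith

theorem result :
    (∀ (m : ℕ) (a : Fin m → ℤ) (T : ℝ), 0 < T → ¬ Inverse a (fun _ => 0) (fun _ => 0) T) ∧
    ¬ ∃ m : ℕ, 3 ≤ m ∧ ∀ a : Fin m → ℤ, Function.Injective a → (∀ i, a i ≠ 0) →
      ∀ (t₀ x₀ : Fin m → ℝ) (T : ℝ), 0 < T → Inverse a t₀ x₀ T := by
  refine ⟨main, ?_⟩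
  rintro ⟨m, -, h⟩
  refine main m (fun i => (i : ℕ) + 1) 1 one_pos (h _ (fun i j hij => ?_) (fun i => ?_) _ _ _ one_pos)
  · apply Fin.ext; omega
  · omega

end Pool.Agent.Results.MP_8d8cf3_an.Fail
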